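import Pool.Agent.Helper14.FO.Defs2

/-! MP_190084_co: module CUB, truncated biased cubes. -/

set_option autoImplicit false

namespace Pool.Agent.Helper14.FO

open Finset

/-- number of ones: every value is attained -/
theorem cub_exists (N k : ℕ) (h : k ≤ N) : ∃ A : Fin N → Bool, CuN A = k := by
  refine ⟨fun i => decide (i.val < k), ?_⟩
  unfold CuN
  have h1 : (univ.filter fun i : Fin N => decide (i.val < k) = true) = univ.filter fun i : Fin N => i.val < k := by
    apply Finset.filter_congr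
    intro i _
    rw [decide_eq_true_iff]
  rw [h1]
  have h2 : (univ.filter fun i : Fin N => i.val < k) = (univ : Finset (Fin k)).image (Fin.castLE h) := by
    ext i
    rw [Finset.mem_filter, Finset.mem_image]
    constructor
    · intro hi
      exact ⟨⟨i.val, hi.2⟩, Finset.mem_univ _, by ext; rfl⟩
    · rintro ⟨j, _, rfl⟩
      exact ⟨Finset.mem_univ _, j.2⟩
  rw [h2, Finset.card_image_of_injective _ (Fin.castLE_injective h), Finset.card_univ, Fintype.card_fin]

theorem cub_E_nonneg (t : ℝ) (N : ℕ) (h0 : 0 < t) (h1 : t < 1 / 2) (A B : Fin N → Bool) : 0 ≤ CuE t N A B := by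
  unfold CuE
  apply Finset.prod_nonneg
  intro i _
  split_ifs
  · exact le_rfl
  · exact h0.le
  · exact h0.le
  · linarith

theorem cub_W_pos (t : ℝ) (N : ℕ) (h0 : 0 < t) (h1 : t < 1 / 2) (A : Fin N → Bool) : 0 < CuW t N A := by
  unfold CuW
  apply Finset.prod_pos
  intro i _
  split_ifs
  · exact h0
  · linarith

theorem cub_E_zero (t : ℝ) (N : ℕ) (A B : Fin N → Bool) (i : Fin N) (hA : A i = true) (hB : B i = true) :
    CuE t N A B = 0 := by
  unfold CuE
  apply Finset.prod_eq_zero (Finset.mem_univ i)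
  rw [if_pos hA, if_pos hB]

/-- scaling -/
theorem cub_scale {V : Type} [Fintype V] (r : V → ℝ) (E : V → V → ℝ) (M c : ℝ) (hc : 0 ≤ c) (h : FM r E M) :
    FM (fun x => c * r x) (fun x y => c * E x y) M := by
  obtain ⟨h1, h2, h3, h4⟩ := h
  refine ⟨fun x y => by beta_reduce; rw [h1 x y], fun x => by beta_reduce; rw [← Finset.mul_sum, h2], fun f => ?_, fun f => ?_⟩
  · have e1 : ∑ x, ∑ y, c * E x y * f x * f y = c * ∑ x, ∑ y, E x y * f x * f y := by
      rw [Finset.mul_sum]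
      refine Finset.sum_congr rfl fun x _ => ?_
      rw [Finset.mul_sum]
      refine Finset.sum_congr rfl fun y _ => ?_
      ring
    have e2 : ∑ x, c * r x * f x ^ 2 = c * ∑ x, r x * f x ^ 2 := by
      rw [Finset.mul_sum]
      refine Finset.sum_congr rfl fun x _ => ?_
      ring
    rw [e1, e2]
    have e3 := mul_nonneg hc (h3 f)
    calc 0 ≤ _ := e3
      _ = _ := by ring
  · have e1 : ∑ x, ∑ y, c * E x y * f x * f y = c * ∑ x, ∑ y, E x y * f x * f y := by
      rw [Finset.mul_sum]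
      refine Finset.sum_congr rfl fun x _ => ?_
      rw [Finset.mul_sum]
      refine Finset.sum_congr rfl fun y _ => ?_
      ring
    have e2 : ∑ x, c * r x * f x ^ 2 = c * ∑ x, r x * f x ^ 2 := by
      rw [Finset.mul_sum]
      refine Finset.sum_congr rfl fun x _ => ?_
      ring
    rw [e1, e2]
    exact mul_le_mul_of_nonneg_left (h4 f) hc

/-- upper form of a symmetric nonnegative matrix -/
theorem cub_upper {V : Type} [Fintype V] (E : V → V → ℝ) (hs : ∀ x y, E x y = E y x) (h0 : ∀ x y, 0 ≤ E x y)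
    (f : V → ℝ) : ∑ x, ∑ y, E x y * f x * f y ≤ ∑ x, (∑ y, E x y) * f x ^ 2 := by
  have h1 : ∑ x, ∑ y, E x y * f x * f y ≤ ∑ x, ∑ y, (E x y * f x ^ 2 / 2 + E x y * f y ^ 2 / 2) := by
    refine Finset.sum_le_sum fun x _ => Finset.sum_le_sum fun y _ => ?_
    have h2 := mul_nonneg (h0 x y) (sq_nonneg (f x - f y))
    nlinarith
  have h2 : ∑ x, ∑ y, (E x y * f x ^ 2 / 2 + E x y * f y ^ 2 / 2) =
      ∑ x, (∑ y, E x y) * f x ^ 2 := by
    have e1 : ∑ x, ∑ y, (E x y * f x ^ 2 / 2 + E x y * f y ^ 2 / 2) =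
        ∑ x, ∑ y, E x y * f x ^ 2 / 2 + ∑ x, ∑ y, E x y * f y ^ 2 / 2 := by
      rw [← Finset.sum_add_distrib]
      refine Finset.sum_congr rfl fun x _ => ?_
      rw [← Finset.sum_add_distrib]
    have e2 : ∑ x, ∑ y, E x y * f y ^ 2 / 2 = ∑ x, ∑ y, E x y * f x ^ 2 / 2 := by
      rw [Finset.sum_comm]
      refine Finset.sum_congr rfl fun x _ => Finset.sum_congr rfl fun y _ => ?_
      rw [hs]
    rw [e1, e2, ← Finset.sum_add_distrib]
    refine Finset.sum_congr rfl fun x _ => ?_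
    rw [← Finset.sum_add_distrib, Finset.sum_mul]
    refine Finset.sum_congr rfl fun y _ => ?_
    ring
  exact h1.trans h2.le

/-- restriction to a subset with small leaks -/
theorem cub_restrict {α : Type} [Fintype α] (P : α → Prop) [DecidablePred P] (w : α → ℝ) (E : α → α → ℝ)
    (M0 ε : ℝ) (hE0 : ∀ x y, 0 ≤ E x y) (hFM : FM w E M0) (hM0 : 0 ≤ M0) (hε : ε < 1)
    (hleak : ∀ x, P x → ∑ y ∈ univ.filter (fun y => ¬ P y), E x y ≤ ε * w x) :
    (∀ x : {x // P x}, (1 - ε) * w x.1 ≤ ∑ y : {x // P x}, E x.1 y.1) ∧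
      FM (fun x : {x // P x} => ∑ y : {x // P x}, E x.1 y.1) (fun x y => E x.1 y.1) (M0 / (1 - ε)) := by
  obtain ⟨h1, h2, h3, h4⟩ := hFM
  have hsub : ∀ g : α → ℝ, ∑ y : {x // P x}, g y.1 = ∑ y ∈ univ.filter P, g y := by
    intro g
    rw [Finset.sum_subtype (univ.filter P) (p := P) (fun x => by simp) g]
  have hr : ∀ x : {x // P x}, (1 - ε) * w x.1 ≤ ∑ y : {x // P x}, E x.1 y.1 := by
    intro x
    rw [hsub (fun y => E x.1 y)]
    have e1 := Finset.sum_filter_add_sum_filter_not (univ : Finset α) P (fun y => E x.1 y)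
    have e2 := hleak x.1 x.2
    have e3 := h2 x.1
    linarith
  refine ⟨hr, fun x y => h1 _ _, fun x => rfl, fun f => ?_, fun f => ?_⟩
  · set g : α → ℝ := fun x => if hx : P x then f ⟨x, hx⟩ else 0 with hg
    have hgv : ∀ x : {x // P x}, g x.1 = f x := by
      intro x
      rw [hg]
      beta_reduce
      rw [dif_pos x.2]
    have hgn : ∀ x, ¬ P x → g x = 0 := by
      intro x hx
      rw [hg]
      beta_reduce
      rw [dif_neg hx]
    have e0 := h3 g
    have e1 : ∀ F : α → ℝ, (∀ x, ¬ P x → F x = 0) → ∑ x, F x = ∑ x : {x // P x}, F x.1 := by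
      intro F hF
      rw [hsub F]
      symm
      apply Finset.sum_subset (Finset.subset_univ _)
      intro x _ hx
      apply hF
      intro h
      exact hx (Finset.mem_filter.mpr ⟨Finset.mem_univ _, h⟩)
    have e2 : ∑ x, ∑ y, E x y * g x * g y = ∑ x : {x // P x}, ∑ y : {x // P x}, E x.1 y.1 * f x * f y := by
      rw [e1 (fun x => ∑ y, E x y * g x * g y)
        (fun x hx => Finset.sum_eq_zero fun y _ => by rw [hgn x hx, mul_zero, zero_mul])]
      refine Finset.sum_congr rfl fun x _ => ?_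
      rw [e1 (fun y => E x.1 y * g x.1 * g y) (fun y hy => by rw [hgn y hy, mul_zero])]
      refine Finset.sum_congr rfl fun y _ => ?_
      rw [hgv x, hgv y]
    have e3 : ∑ x, w x * g x ^ 2 = ∑ x : {x // P x}, w x.1 * f x ^ 2 := by
      rw [e1 (fun x => w x * g x ^ 2)
        (fun x hx => by rw [hgn x hx]; ring)]
      refine Finset.sum_congr rfl fun x _ => ?_
      rw [hgv x]
    rw [e2, e3] at e0
    have hp : 0 < 1 - ε := by linarith
    have e4 : M0 * ∑ x : {x // P x}, w x.1 * f x ^ 2 ≤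
        M0 / (1 - ε) * ∑ x : {x // P x}, (∑ y : {x // P x}, E x.1 y.1) * f x ^ 2 := by
      rw [div_mul_eq_mul_div, le_div_iff₀ hp, mul_assoc]
      apply mul_le_mul_of_nonneg_left _ hM0
      rw [Finset.sum_mul]
      refine Finset.sum_le_sum fun x _ => ?_
      have := mul_le_mul_of_nonneg_right (hr x) (sq_nonneg (f x))
      calc w x.1 * f x ^ 2 * (1 - ε) = (1 - ε) * w x.1 * f x ^ 2 := by ring
        _ ≤ _ := this
    linarith
  · exact cub_upper (fun x y : {x // P x} => E x.1 y.1) (fun x y => h1 _ _) (fun x y => hE0 _ _) f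

theorem st_CUB (h1 : ST_CU1) (h2 : ST_CU2) : ST_CUB := by
  intro y0 y1 hy0 hy
  have hy0p : 0 < y0 := by linarith
  have hy1p : 0 < y1 := by linarith
  have hlt : 1 / y1 < 1 / y0 := one_div_lt_one_div_of_lt hy0p hy
  obtain ⟨t, ht1, ht2⟩ := exists_between hlt
  obtain ⟨u, hu1, hu2⟩ := exists_between ht1
  have hu0 : 0 < u := lt_trans (by positivity) hu1
  have ht0 : 0 < t := hu0.trans hu2
  have hty0 : t * y0 < 1 := by
    rw [lt_div_iff₀ hy0p] at ht2
    exact ht2
  have huy1 : 1 < u * y1 := by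
    rw [div_lt_iff₀ hy1p] at hu1
    exact hu1
  have hth : t < 1 / 2 := by nlinarith
  have h1t : 0 < 1 - t := by linarith
  set δ : ℝ := t - u with hδ
  have hδ0 : 0 < δ := by rw [hδ]; linarith
  -- the value of ε
  have hq : (y0 - 1) * t < 1 - t := by nlinarith
  obtain ⟨q, hq1, hq2⟩ := exists_between hq
  have hq0 : 0 < q := lt_trans (mul_pos (by linarith) ht0) hq1
  set ε : ℝ := 1 - q / (1 - t) with hε
  have hε1 : 1 - ε = q / (1 - t) := by rw [hε]; ring
  have hεp : 0 < 1 - ε := by rw [hε1]; exact div_pos hq0 h1t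
  have hε0 : 0 < ε := by
    rw [hε, sub_pos, div_lt_one h1t]
    exact hq2
  have hεl : ε < 1 := by linarith
  set M : ℝ := t / (1 - t) / (1 - ε) with hM
  have hMq : M = t / q := by
    rw [hM, hε1]
    field_simp
  have hM0 : 0 < M := by rw [hMq]; exact div_pos ht0 hq0
  have hM1 : M < 1 := by
    rw [hMq, div_lt_one hq0]
    nlinarith
  have hMi : 1 / M = q / t := by rw [hMq, one_div_div]
  obtain ⟨N0, hN0⟩ := h2 t δ ε ht0 hth hδ0 hε0
  obtain ⟨N1, hN1⟩ := exists_nat_ge (1 / δ)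
  set N : ℕ := max N0 (max N1 1) with hN
  have hNN0 : N0 ≤ N := le_max_left _ _
  have hNN1 : N1 ≤ N := (le_max_left _ _).trans (le_max_right _ _)
  have hN1' : 1 ≤ N := (le_max_right _ _).trans (le_max_right _ _)
  have hNp : (0 : ℝ) < N := by exact_mod_cast hN1'
  have hδN : 1 ≤ δ * N := by
    have : 1 / δ ≤ (N : ℝ) := hN1.trans (by exact_mod_cast hNN1)
    rw [div_le_iff₀ hδ0] at this
    linarith
  set P : (Fin N → Bool) → Prop := fun A => |(CuN A : ℝ) - t * N| ≤ δ * N with hP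
  have hleak : ∀ A, P A → ∑ B ∈ univ.filter (fun B => ¬ P B), CuE t N A B ≤ ε * CuW t N A :=
    fun A hA => hN0 N hNN0 A hA
  obtain ⟨hr, hFM⟩ := cub_restrict P (CuW t N) (CuE t N) (t / (1 - t)) ε (cub_E_nonneg t N ht0 hth)
    (h1 t N ht0 hth) (div_pos ht0 h1t).le hεl hleak
  set r : {A // P A} → ℝ := fun A => ∑ B : {A // P A}, CuE t N A.1 B.1 with hrd
  have hrp : ∀ A, 0 < r A := fun A => lt_of_lt_of_le (mul_pos hεp (cub_W_pos t N ht0 hth A.1)) (hr A)
  have hne : Nonempty {A // P A} := by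
    have hk : ⌊t * N⌋₊ ≤ N := by
      apply Nat.floor_le_of_le
      nlinarith
    obtain ⟨A, hA⟩ := cub_exists N ⌊t * N⌋₊ hk
    refine ⟨⟨A, ?_⟩⟩
    show |(CuN A : ℝ) - t * N| ≤ δ * N
    rw [hA]
    have e1 := Nat.floor_le (show 0 ≤ t * N by positivity)
    have e2 := Nat.lt_floor_add_one (t * (N : ℝ))
    rw [abs_le]
    constructor
    · linarith
    · linarith
  set s : ℝ := ∑ A, r A with hs
  have hsp : 0 < s := Finset.sum_pos (fun A _ => hrp A) Finset.univ_nonempty
  have hcnt : ∀ A : {A // P A}, u * N ≤ (CuN A.1 : ℝ) := by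
    intro A
    have := A.2
    have e1 : |(CuN A.1 : ℝ) - t * N| ≤ δ * N := this
    rw [abs_le] at e1
    have e2 := e1.1
    rw [hδ] at e2
    nlinarith
  have hone : ∀ A : {A // P A}, ∃ i, A.1 i = true := by
    intro A
    have e1 : (0 : ℝ) < CuN A.1 := lt_of_lt_of_le (mul_pos hu0 hNp) (hcnt A)
    have e2 : 0 < CuN A.1 := by exact_mod_cast e1
    unfold CuN at e2
    obtain ⟨i, hi⟩ := Finset.card_pos.mp e2
    exact ⟨i, (Finset.mem_filter.mp hi).2⟩
  let X : SimpleGraph {A // P A} :=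
    { Adj := fun A B => A ≠ B ∧ ∀ i, ¬ (A.1 i = true ∧ B.1 i = true)
      symm := ⟨fun A B h => ⟨h.1.symm, fun i hi => h.2 i ⟨hi.2, hi.1⟩⟩⟩
      loopless := ⟨fun A h => h.1 rfl⟩ }
  have hX : ∀ A B, X.Adj A B ↔ A ≠ B ∧ ∀ i, ¬ (A.1 i = true ∧ B.1 i = true) := fun A B => Iff.rfl
  have hdec : DecidableEq {A // P A} := Classical.decEq _
  refine ⟨⟨{A // P A}, X, fun A => s⁻¹ * r A, fun A => mul_pos (inv_pos.mpr hsp) (hrp A), ?_⟩, M, 1 / u,
    hM0, hM1, ?_, ?_, ?_, ?_, ?_, ?_⟩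
  · rw [← Finset.mul_sum]
    exact inv_mul_cancel₀ hsp.ne'
  · refine ⟨fun A B => s⁻¹ * CuE t N A.1 B.1, ?_, ?_⟩
    · intro A B hAB
      have hz : CuE t N A.1 B.1 = 0 := by
        by_cases hAe : A = B
        · obtain ⟨i, hi⟩ := hone A
          exact cub_E_zero t N _ _ i hi (by rw [← hAe]; exact hi)
        · have h3 : ¬ ∀ i, ¬ (A.1 i = true ∧ B.1 i = true) := fun h => hAB ((hX A B).mpr ⟨hAe, h⟩)
          push Not at h3
          obtain ⟨i, hi1, hi2⟩ := h3
          exact cub_E_zero t N _ _ i hi1 hi2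
      beta_reduce
      rw [hz, mul_zero]
    · exact cub_scale r _ M s⁻¹ (inv_nonneg.mpr hsp.le) hFM
  · rw [hMi]
    have : y0 - 1 < q / t := by
      rw [lt_div_iff₀ ht0]
      exact hq1
    linarith
  · rw [hMi]
    have e1 : q / t < y1 - 1 := by
      rw [div_lt_iff₀ ht0]
      nlinarith
    linarith
  · refine ⟨Fin N, inferInstance, fun _ => 1 / N, fun i A => A.1 i, fun _ => by positivity, ?_, ?_, ?_⟩
    · rw [Finset.sum_const, Finset.card_univ, Fintype.card_fin, nsmul_eq_mul]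
      field_simp
    · intro i A B hA hB hAB
      exact ((hX A B).mp hAB).2 i ⟨hA, hB⟩
    · intro A
      have e1 : ∑ j : Fin N, (if A.1 j = true then (1 : ℝ) / N else 0) = (CuN A.1 : ℝ) * (1 / N) := by
        rw [← Finset.sum_filter, Finset.sum_const, nsmul_eq_mul]
        rfl
      rw [e1]
      have e2 := hcnt A
      have e3 : u ≤ (CuN A.1 : ℝ) * (1 / N) := by
        rw [mul_one_div, le_div_iff₀ hNp]
        exact e2
      calc (1 : ℝ) = 1 / u * u := by field_simp
        _ ≤ _ := mul_le_mul_of_nonneg_left e3 (by positivity)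
  · rw [lt_div_iff₀ hu0]
    nlinarith
  · rw [div_lt_iff₀ hu0]
    linarith

end Pool.Agent.Helper14.FO
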