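import Pool.Agent.Helper14.FO.Defs

/-! MP_190084_co: the tree of final nodes. -/

set_option autoImplicit false

namespace Pool.Agent.Helper14.FO

open Finset

theorem nodes_cert_mono {V : Type} [Fintype V] [DecidableEq V] {X : SimpleGraph V} {M M' : ℝ}
    (h : M ≤ M') (hc : Cert X M) : Cert X M' := by
  obtain ⟨A, h1, h2, h3, h4⟩ := hc
  refine ⟨A, h1, h2, ?_, h4⟩
  have e : A + M' • (1 : Matrix V V ℝ) = (A + M • (1 : Matrix V V ℝ)) +
      (M' - M) • (1 : Matrix V V ℝ) := by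
    rw [sub_smul]; abel
  rw [e]
  exact h3.add (Matrix.PosSemidef.one.smul (sub_nonneg.mpr h))

theorem nodes_x1 {m : ℕ} (hm : 3 ≤ m) : 3 / 4 ≤ 1 - 2 / (m : ℝ) ^ 2 ∧ 1 - 2 / (m : ℝ) ^ 2 < 1 := by
  have h3 : (3 : ℝ) ≤ m := by exact_mod_cast hm
  have h9 : (9 : ℝ) ≤ (m : ℝ) ^ 2 := by nlinarith
  have hp : (0 : ℝ) < (m : ℝ) ^ 2 := by linarith
  have h1 : 2 / (m : ℝ) ^ 2 ≤ 1 / 4 := by
    rw [div_le_iff₀ hp]; linarith
  have h2 : 0 < 2 / (m : ℝ) ^ 2 := by positivity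
  constructor <;> linarith

theorem st_NODES (h1 : ST_ROOT) (h2 : ST_NEXT) (h3 : ST_DENK) (h4 : ST_SPC) (h5 : ST_KHOM)
    (h6 : ST_TREE) : ST_NODES := by
  intro ε hε
  -- the odd number `m`
  obtain ⟨e, he, he0, he1⟩ : ∃ e : ℝ, e ≤ ε ∧ 0 < e ∧ e ≤ 1 :=
    ⟨min ε 1, min_le_left _ _, lt_min hε one_pos, min_le_right _ _⟩
  obtain ⟨k, hk⟩ := exists_nat_gt (1 / e)
  have hk0 : (0 : ℝ) < k := lt_trans (by positivity) hk
  have hk1 : 1 ≤ k := by
    have : 0 < k := by exact_mod_cast hk0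
    omega
  obtain ⟨m, hm⟩ : ∃ m : ℕ, m = 2 * k + 1 := ⟨_, rfl⟩
  have hm3 : 3 ≤ m := by omega
  have hmodd : Odd m := ⟨k, hm⟩
  have hmR : (m : ℝ) = 2 * k + 1 := by rw [hm]; push_cast; ring
  have hm1 : 0 < (m : ℝ) - 1 := by rw [hmR]; linarith
  have hr2 : 2 < 2 * (m : ℝ) / (m - 1) := by
    rw [lt_div_iff₀ hm1]; linarith
  have hre : 2 * (m : ℝ) / (m - 1) < 2 + e := by
    rw [div_lt_iff₀ hm1, hmR]
    have : 1 < k * e := by
      rw [div_lt_iff₀ he0] at hk
      exact hk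
    nlinarith
  obtain ⟨c1, c2⟩ := nodes_x1 hm3
  obtain ⟨c, hc⟩ : ∃ c : ℝ, c = 1 - 2 / (m : ℝ) ^ 2 := ⟨_, rfl⟩
  rw [← hc] at c1 c2
  have c0 : 0 < c := by linarith
  have hcinv : 1 < 1 / c := by
    rw [lt_div_iff₀ c0]; linarith
  -- the tree
  have hx01 : Real.log 2 < Real.log (1 + 1 / c) := Real.log_lt_log (by norm_num) (by linarith)
  have hy01 : Real.log (2 * (m : ℝ) / (m - 1)) < Real.log (2 + e) :=
    Real.log_lt_log (by linarith) hre
  obtain ⟨tx, ty, η, hη, hbox, hch, hconv⟩ := h6 _ _ _ _ hx01 hy01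
  -- intervals
  have ex1 : ∀ w, 2 < Real.exp (tx w - η w.length) := by
    intro w
    rw [← Real.log_lt_iff_lt_exp (by norm_num)]
    exact (hbox w).1
  have ex2 : ∀ w, Real.exp (tx w + η w.length) < 1 + 1 / c := by
    intro w
    rw [← Real.lt_log_iff_exp_lt (by linarith)]
    exact (hbox w).2.1
  have ex3 : ∀ w, Real.exp (tx w - η w.length) < Real.exp (tx w + η w.length) := by
    intro w
    have := hη w.length
    exact Real.exp_lt_exp.mpr (by linarith)
  obtain ⟨lo, hlo⟩ : ∃ lo : List Bool → ℝ, ∀ w, lo w = 1 / (Real.exp (tx w + η w.length) - 1) :=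
    ⟨_, fun _ => rfl⟩
  obtain ⟨hi, hhi⟩ : ∃ hi : List Bool → ℝ, ∀ w, hi w = 1 / (Real.exp (tx w - η w.length) - 1) :=
    ⟨_, fun _ => rfl⟩
  have l1 : ∀ w, c < lo w := by
    intro w
    rw [hlo, lt_div_iff₀ (by linarith [ex1 w, ex3 w])]
    have a := ex2 w
    have a2 : c * (1 / c) = 1 := by field_simp
    nlinarith
  have l2 : ∀ w, lo w < hi w := by
    intro w
    rw [hlo, hhi]
    exact one_div_lt_one_div_of_lt (by linarith [ex1 w]) (by linarith [ex3 w])
  have l3 : ∀ w, hi w < 1 := by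
    intro w
    rw [hhi, div_lt_one (by linarith [ex1 w])]
    linarith [ex1 w]
  have l4 : ∀ w b, hi w < lo (b :: w) := by
    intro w b
    rw [hlo, hhi]
    apply one_div_lt_one_div_of_lt
    · linarith [ex1 (b :: w), ex3 (b :: w)]
    · have := Real.exp_lt_exp.mpr (hch w b).1
      rw [List.length_cons]
      linarith
  -- the nodes
  obtain ⟨X0, hX0⟩ := h1 (lo []) (hi []) (by linarith [l1 []]) (l2 []) (l3 []).le
  have step : ∀ (w : List Bool) (b : Bool) (X : {X : RN // lo w < X.M ∧ X.M < hi w}),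
      ∃ X' : {X : RN // lo (b :: w) < X.M ∧ X.M < hi (b :: w)},
        ∃ φ : X'.1.G → X.1.G, ∀ x y, X'.1.R.Adj x y → X.1.R.Adj (φ x) (φ y) := by
    intro w b X
    obtain ⟨X', a1, a2, a3⟩ := h2 X.1 (lo (b :: w)) (hi (b :: w))
      (by linarith [X.2.2, l4 w b]) (l2 _) (l3 _).le
    exact ⟨⟨X', a1, a2⟩, a3⟩
  choose nx hnx using step
  obtain ⟨nX, nX0, nX1⟩ : ∃ nX : ∀ w : List Bool, {X : RN // lo w < X.M ∧ X.M < hi w},
      nX [] = ⟨X0, hX0⟩ ∧ ∀ b w, nX (b :: w) = nx w b (nX w) :=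
    ⟨fun w => List.rec (motive := fun w => {X : RN // lo w < X.M ∧ X.M < hi w}) ⟨X0, hX0⟩
      (fun b w X => nx w b X) w, rfl, fun _ _ => rfl⟩
  -- the circular cliques
  have ey1 : ∀ w, 2 * (m : ℝ) / (m - 1) < Real.exp (ty w - η w.length) := by
    intro w
    rw [← Real.log_lt_iff_lt_exp (by linarith)]
    exact (hbox w).2.2.1
  have ey2 : ∀ w, Real.exp (ty w + η w.length) < 2 + e := by
    intro w
    rw [← Real.lt_log_iff_exp_lt (by linarith)]
    exact (hbox w).2.2.2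
  have hpq : ∀ w : List Bool, ∃ pq : ℕ × ℕ, m ∣ pq.1 ∧ 0 < pq.2 ∧ 0 < pq.1 ∧
      Real.exp (ty w - η w.length) < (pq.1 : ℝ) / pq.2 ∧
      (pq.1 : ℝ) / pq.2 < Real.exp (ty w + η w.length) := by
    intro w
    have := hη w.length
    obtain ⟨p, q, a1, a2, a3, a4, a5⟩ := h3 m (by omega) (Real.exp (ty w - η w.length))
      (Real.exp (ty w + η w.length)) (by linarith [ey1 w])
      (Real.exp_lt_exp.mpr (by linarith))
    exact ⟨(p, q), a1, a2, a3, a4, a5⟩
  choose pq hp1 hp2 hp3 hp4 hp5 using hpq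
  have hq0 : ∀ w, (0 : ℝ) < (pq w).2 := fun w => by exact_mod_cast hp2 w
  have hr1 : ∀ w, 2 * ((pq w).2 : ℝ) < (pq w).1 := by
    intro w
    have a1 : 2 < ((pq w).1 : ℝ) / (pq w).2 := by linarith [ey1 w, hp4 w]
    rwa [lt_div_iff₀ (hq0 w)] at a1
  have hr3 : ∀ w, ((pq w).1 : ℝ) < 3 * (pq w).2 := by
    intro w
    have a1 : ((pq w).1 : ℝ) / (pq w).2 < 3 := by linarith [ey2 w, hp5 w]
    rwa [div_lt_iff₀ (hq0 w)] at a1
  have hcert : ∀ w, ∀ _ : NeZero (pq w).1, Cert (KC (pq w).1 (pq w).2) (nX w).1.M := by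
    intro w inst
    refine nodes_cert_mono (M := 1 - 2 / (m : ℝ) ^ 2) ?_ ?_
    · rw [← hc]
      linarith [l1 w, (nX w).2.1]
    · refine h4 m (pq w).1 (pq w).2 hmodd hm3 (hp1 w) (hp2 w) ?_
      have a1 : 2 * (m : ℝ) / (m - 1) < ((pq w).1 : ℝ) / (pq w).2 := by linarith [ey1 w, hp4 w]
      rw [div_lt_div_iff₀ hm1 (hq0 w)] at a1
      have a2 : ((2 * m * (pq w).2 : ℕ) : ℝ) ≤ (((pq w).1 * (m - 1) : ℕ) : ℝ) := by
        rw [Nat.cast_mul, Nat.cast_mul, Nat.cast_mul, Nat.cast_sub (by omega)]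
        push_cast
        linarith
      exact_mod_cast a2
  obtain ⟨nd, hnp, hnq, hnX⟩ : ∃ nd : List Bool → FN, (∀ w, (nd w).p = (pq w).1) ∧
      (∀ w, (nd w).q = (pq w).2) ∧ ∀ w, (nd w).X = (nX w).1 := by
    refine ⟨fun w => { p := (pq w).1, q := (pq w).2, ne := ⟨(hp3 w).ne'⟩, X := (nX w).1,
                       hq := hp2 w, h2 := ?_, h10 := ?_, cr := hcert w ⟨(hp3 w).ne'⟩ },
      fun _ => rfl, fun _ => rfl, fun _ => rfl⟩
    · have := (hr1 w).le
      exact_mod_cast this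
    · have : ((pq w).1 : ℝ) ≤ 10 * (pq w).2 := by linarith [hr3 w, hq0 w]
      exact_mod_cast this
  refine ⟨nd, ?_, ?_, ?_⟩
  · rw [hnp, hnq]
    linarith [hp5 [], ey2 []]
  · intro w b
    obtain ⟨φ1, hφ1⟩ := h5 (nd (b :: w)).p (nd (b :: w)).q (nd w).p (nd w).q (nd (b :: w)).hq
      (nd w).hq (by
        rw [hnp, hnq, hnp, hnq]
        have a1 := Real.exp_lt_exp.mpr (hch w b).2
        have a2 := hp5 (b :: w)
        rw [List.length_cons] at a2
        have a3 : ((pq (b :: w)).1 : ℝ) / (pq (b :: w)).2 < ((pq w).1 : ℝ) / (pq w).2 := by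
          linarith [hp4 w]
        rw [div_lt_div_iff₀ (hq0 _) (hq0 _)] at a3
        exact_mod_cast a3.le)
    have hX : ∃ φ : (nd (b :: w)).X.G → (nd w).X.G, ∀ x y, (nd (b :: w)).X.R.Adj x y →
        (nd w).X.R.Adj (φ x) (φ y) := by
      rw [hnX, hnX, nX1]
      exact hnx w b (nX w)
    obtain ⟨φ2, hφ2⟩ := hX
    exact ⟨fun x => (φ1 x.1, φ2 x.2), fun x y hxy => ⟨hφ1 _ _ hxy.1, hφ2 _ _ hxy.2⟩⟩
  · have hF : ∀ w, |Real.log (1 + 1 / (nd w).X.M) - tx w| < η w.length := by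
      intro w
      rw [hnX]
      have a1 := (nX w).2.1
      have a2 := (nX w).2.2
      obtain ⟨M, hM⟩ : ∃ M : ℝ, M = (nX w).1.M := ⟨_, rfl⟩
      rw [← hM] at a1 a2 ⊢
      have a0 : 0 < M := by linarith [l1 w]
      rw [hlo] at a1
      rw [hhi] at a2
      have b1 : 0 < Real.exp (tx w + η w.length) - 1 := by linarith [ex1 w, ex3 w]
      have b2 : 0 < Real.exp (tx w - η w.length) - 1 := by linarith [ex1 w]
      have b3 : 1 / M < Real.exp (tx w + η w.length) - 1 := by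
        rw [div_lt_iff₀ b1] at a1
        rw [div_lt_iff₀ a0]
        linarith
      have b4 : Real.exp (tx w - η w.length) - 1 < 1 / M := by
        rw [lt_div_iff₀ b2] at a2
        rw [lt_div_iff₀ a0]
        linarith
      rw [abs_lt]
      constructor
      · have : tx w - η w.length < Real.log (1 + 1 / M) := by
          rw [Real.lt_log_iff_exp_lt (by positivity)]
          linarith
        linarith
      · have : Real.log (1 + 1 / M) < tx w + η w.length := by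
          rw [Real.log_lt_iff_lt_exp (by positivity)]
          linarith
        linarith
    have hH : ∀ w, |Real.log (((nd w).p : ℝ) / (nd w).q) - ty w| < η w.length := by
      intro w
      rw [hnp, hnq]
      have a0 : (0 : ℝ) < ((pq w).1 : ℝ) / (pq w).2 :=
        div_pos (by exact_mod_cast hp3 w) (hq0 w)
      rw [abs_lt]
      constructor
      · have : ty w - η w.length < Real.log (((pq w).1 : ℝ) / (pq w).2) := by
          rw [Real.lt_log_iff_exp_lt a0]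
          exact hp4 w
        linarith
      · have : Real.log (((pq w).1 : ℝ) / (pq w).2) < ty w + η w.length := by
          rw [Real.log_lt_iff_lt_exp a0]
          exact hp5 w
        linarith
    exact hconv (fun w => Real.log (1 + 1 / (nd w).X.M))
      (fun w => Real.log (((nd w).p : ℝ) / (nd w).q)) hF hH

end Pool.Agent.Helper14.FO
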